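import Pool.Agent.Y45.MON.StmS
import Pool.Agent.TH54.BU.Tube

/-!
# Project MON: frames and the words `Wj` at one step
-/

set_option autoImplicit false

namespace Pool.Agent.Y811.MON

open Pool.Agent.TH54.BU Pool.Agent.Y45.MON

theorem nat_le_len {G : Type} [Group G] {H : GH G} {c θ T : ℕ} (L : LS H c θ T) (i : L.ι)
    (k : ℤ) : k.natAbs ≤ T * H.len (L.x i ^ k) := by
  rcases Int.natAbs_eq k with h | h
  · conv_rhs => rw [h, zpow_natCast]
    exact L.lin i _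
  · conv_rhs => rw [h, zpow_neg, zpow_natCast, H.len_inv]
    exact L.lin i _

theorem len_pow_le {G : Type} [Group G] (H : GH G) (g : G) (m : ℕ) :
    H.len (g ^ m) ≤ m * H.len g := by
  induction m with
  | zero => simp [H.len_one]
  | succ m ih =>
    rw [pow_succ]
    have := H.len_mul (g ^ m) g
    have e : (m + 1) * H.len g = m * H.len g + H.len g := by ring
    omega

theorem len_conj_le {G : Type} [Group G] (H : GH G) (u g : G) :
    H.len (u * g * u⁻¹) ≤ 2 * H.len u + H.len g := by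
  have h1 := H.len_mul (u * g) u⁻¹
  have h2 := H.len_mul u g
  rw [H.len_inv] at h1
  omega

theorem len_conj_le' {G : Type} [Group G] (H : GH G) (u g : G) :
    H.len (u⁻¹ * g * u) ≤ 2 * H.len u + H.len g := by
  have h := len_conj_le H u⁻¹ g
  rw [H.len_inv, inv_inv] at h
  exact h

theorem isOfFinOrder_conj {G : Type} [Group G] {u g : G} (h : IsOfFinOrder (u * g * u⁻¹)) :
    IsOfFinOrder g := by
  rw [isOfFinOrder_iff_pow_eq_one] at h ⊢
  obtain ⟨n, hn, h⟩ := h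
  refine ⟨n, hn, ?_⟩
  rw [conj_pow] at h
  have : g ^ n = u⁻¹ * (u * g ^ n * u⁻¹) * u := by group
  rw [this, h]
  group

theorem frame : FrameStmt := by
  intro G _ H c θ T L R g hS hg hR
  obtain ⟨i, u0, e, rfl⟩ := hS
  have he : e ≠ 0 := by
    rintro rfl
    apply hg
    simp
  set u : G := L.pr i u0 1 with hu
  have hux : u = u0 * L.x i ^ L.κ i (u0⁻¹ * 1) := rfl
  have hconj : u0 * L.x i ^ e * u0⁻¹ = u * L.x i ^ e * u⁻¹ := by
    rw [hux]
    generalize L.κ i (u0⁻¹ * 1) = k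
    have h1 : L.x i ^ k * L.x i ^ e = L.x i ^ e * L.x i ^ k := by
      rw [← zpow_add, ← zpow_add, add_comm]
    rw [mul_inv_rev, mul_assoc u0 (L.x i ^ k), h1]
    group
  have hlen : H.len u ≤ tb H.D c T R := by
    have h := L.tube (i := i) (u := u0) (t := 1) he (R := R) (by
      rw [mul_one, H.d_one]
      exact hR)
    rw [H.d_one] at h
    exact h
  refine ⟨i, u, e, hconj, he, ?_, hlen⟩
  have key : ∀ m : ℕ, (e.natAbs) * m ≤ T * (2 * H.len u + m * R) := by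
    intro m
    have h1 := nat_le_len L i (e * m)
    rw [Int.natAbs_mul, Int.natAbs_natCast] at h1
    refine h1.trans (Nat.mul_le_mul_left T ?_)
    have h2 : L.x i ^ (e * (m : ℤ)) = u⁻¹ * ((u0 * L.x i ^ e * u0⁻¹) ^ m) * u := by
      rw [hconj, conj_pow, zpow_mul, zpow_natCast]
      group
    rw [h2]
    have h3 := len_conj_le' H u ((u0 * L.x i ^ e * u0⁻¹) ^ m)
    have h4 := len_pow_le H (u0 * L.x i ^ e * u0⁻¹) m
    have h5 := Nat.mul_le_mul_left m hR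
    omega
  have h := key (2 * (T * H.len u) + 1)
  have h2 : e.natAbs ≤ T * R := by
    by_contra hcon
    push Not at hcon
    have h3 := Nat.mul_le_mul_right (2 * (T * H.len u) + 1) hcon
    have h4 : T * (2 * H.len u + (2 * (T * H.len u) + 1) * R) =
        2 * (T * H.len u) + (T * R) * (2 * (T * H.len u) + 1) := by ring
    have h5 : (T * R).succ * (2 * (T * H.len u) + 1) =
        (T * R) * (2 * (T * H.len u) + 1) + (2 * (T * H.len u) + 1) := by
      rw [Nat.succ_mul]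
    omega
  rw [← Int.natCast_natAbs]
  push_cast
  have : ((e.natAbs : ℕ) : ℤ) ≤ ((T * R : ℕ) : ℤ) := by exact_mod_cast h2
  push_cast at this
  linarith

/-- the data attached to a good triple -/
theorem gd_frame (h1 : FrameStmt) {G : Type} [Group G] {H : GH G} {c θ T : ℕ} {L : LS H c θ T}
    (hshort : ∀ z, ¬ IsOfFinOrder z → H.len z ≤ 1 → L.Short z) {r : ℕ} (w : WP r)
    {μ : Fin r → ℕ → ℕ} {ρ B0 : ℕ} (hδ : ∀ j, w.δ j = 1 ∨ w.δ j = 2)
    (hw : ∀ j (l : Fin 4), w.e j l = B0 * μ j l) (hρ : 2 * tb H.D c T 1 + 4 ≤ ρ)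
    {a b X : G} (hG : Gd H a b X) : ∃ (i : L.ι) (u : G) (e : ℤ),
    H.len u ≤ tb H.D c T 1 ∧ X = u * L.x i ^ e * u⁻¹ ∧
    ∀ j, Fr L ρ (T + 1) i e (w.δ j) (u⁻¹ * a * u) (u⁻¹ * b * u) ∧
      Wj w j a b X = u * wd (w.δ j) (fun l => e * (B0 * μ j l)) (u⁻¹ * a * u) (u⁻¹ * b * u)
        (L.x i) * u⁻¹ := by
  obtain ⟨i, u, e, hX, he, heT, hu⟩ := h1 G H c θ T L 1 X (hshort X hG.iX hG.lX) hG.iX hG.lX
  refine ⟨i, u, e, hu, hX, fun j => ⟨?_, ?_⟩⟩
  · have hcomm : ∀ g : G, u⁻¹ * g * u ∈ Subgroup.zpowers (L.x i) → g * X = X * g := by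
      rintro g ⟨k, hk⟩
      have hg : g = u * L.x i ^ k * u⁻¹ := by
        have hk' : L.x i ^ k = u⁻¹ * g * u := hk
        rw [hk']
        group
      rw [hg, hX]
      have e1 : u * L.x i ^ k * u⁻¹ * (u * L.x i ^ e * u⁻¹) = u * (L.x i ^ k * L.x i ^ e) * u⁻¹ := by
        group
      have e2 : u * L.x i ^ e * u⁻¹ * (u * L.x i ^ k * u⁻¹) = u * (L.x i ^ e * L.x i ^ k) * u⁻¹ := by
        group
      rw [e1, e2, ← zpow_add, ← zpow_add, add_comm]
    have hpow : ∀ δ : ℕ, (u⁻¹ * a * u) ^ δ = u⁻¹ * a ^ δ * u := by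
      intro δ
      have := conj_pow (i := δ) (a := u⁻¹) (b := a)
      rw [inv_inv] at this
      exact this
    have hla := hG.la
    have hlb := hG.lb
    refine ⟨he, ?_, ?_, ?_, ?_, ?_, ?_, ?_⟩
    · push_cast
      push_cast at heT
      linarith
    · have := len_conj_le' H u a
      omega
    · rw [hpow]
      have h2 := len_conj_le' H u (a ^ w.δ j)
      have h3 := len_pow_le H a (w.δ j)
      have h4 : w.δ j * H.len a ≤ 2 * 1 := Nat.mul_le_mul (by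
        rcases hδ j with h | h <;> omega) hla
      omega
    · have := len_conj_le' H u b
      omega
    · intro h
      exact hG.ca (hcomm a h)
    · intro h
      rw [hpow] at h
      rcases hδ j with h' | h'
      · rw [h', pow_one] at h
        exact hG.ca (hcomm a h)
      · rw [h'] at h
        exact hG.ca2 (hcomm _ h)
    · intro h
      exact hG.cb (hcomm b h)
  · have hXp : ∀ n : ℕ, X ^ n = u * L.x i ^ (e * (n : ℤ)) * u⁻¹ := by
      intro n
      rw [hX, conj_pow, zpow_mul, zpow_natCast]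
    have hpow : ∀ δ : ℕ, (u⁻¹ * a * u) ^ δ = u⁻¹ * a ^ δ * u := by
      intro δ
      have := conj_pow (i := δ) (a := u⁻¹) (b := a)
      rw [inv_inv] at this
      exact this
    unfold Wj wd
    rw [hw j 0, hw j 1, hw j 2, hw j 3, hXp, hXp, hXp, hXp, hpow]
    push_cast
    simp only [Fin.isValue, Fin.val_zero, Fin.val_one, Fin.val_two]
    have h3 : ((3 : Fin 4) : ℕ) = 3 := rfl
    rw [h3]
    group

theorem wr (h1 : FrameStmt) (h2 : RigStmt) : WrStmt := by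
  intro G _ H c θ T L n M _ hF E Θ hE hT hprim hshort hsmall r w μ ρ B0 F hδ hμ hμ4 hμi hw hρ hB0
    hFb hn a b X hG j
  obtain ⟨i, u, e, hu, hX, hfr⟩ := gd_frame h1 hshort w hδ hw hρ hG
  obtain ⟨hfrj, hW⟩ := hfr j
  obtain ⟨r1, r2, r3, r4⟩ := h2 G H c θ T L n M hF E Θ hE hT hprim r w.δ μ hδ hμ hμ4 hμi ρ (T + 1)
    B0 F hB0 hFb hn j i e _ _ hfrj
  set w0 := wd (w.δ j) (fun l => e * (B0 * μ j l)) (u⁻¹ * a * u) (u⁻¹ * b * u) (L.x i) with hw0
  have hWq : ((Wj w j a b X : G) : G ⧸ M) = (u : G ⧸ M) * (w0 : G ⧸ M) * (u : G ⧸ M)⁻¹ := by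
    rw [hW]
    rfl
  have c3 : ∀ q : G ⧸ M, q * (Wj w j a b X : G) = (Wj w j a b X : G) * q →
      ∃ t : ℤ, q = ((Wj w j a b X : G) : G ⧸ M) ^ t := by
    intro q hq
    rw [hWq] at hq
    obtain ⟨t, ht⟩ := r2 ((u : G ⧸ M)⁻¹ * q * (u : G ⧸ M)) (by
      have : (u : G ⧸ M)⁻¹ * (q * ((u : G ⧸ M) * (w0 : G ⧸ M) * (u : G ⧸ M)⁻¹)) * (u : G ⧸ M) =
        (u : G ⧸ M)⁻¹ * (((u : G ⧸ M) * (w0 : G ⧸ M) * (u : G ⧸ M)⁻¹) * q) * (u : G ⧸ M) := by
        rw [hq]
      have e1 : (u : G ⧸ M)⁻¹ * (q * ((u : G ⧸ M) * (w0 : G ⧸ M) * (u : G ⧸ M)⁻¹)) * (u : G ⧸ M) =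
        (u : G ⧸ M)⁻¹ * q * (u : G ⧸ M) * (w0 : G ⧸ M) := by group
      have e2 : (u : G ⧸ M)⁻¹ * (((u : G ⧸ M) * (w0 : G ⧸ M) * (u : G ⧸ M)⁻¹) * q) * (u : G ⧸ M) =
        (w0 : G ⧸ M) * ((u : G ⧸ M)⁻¹ * q * (u : G ⧸ M)) := by group
      rw [e1, e2] at this
      exact this)
    refine ⟨t, ?_⟩
    rw [hWq, conj_zpow, ← ht]
    group
  refine ⟨?_, ?_, c3, ?_, ?_⟩
  · intro hfin
    rw [hWq] at hfin
    exact r1 (isOfFinOrder_conj hfin)
  · have hXe : ∀ m : ℕ, E.len (X ^ m) ≤ 2 * tb H.D c T 1 + 1 := by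
      intro m
      have hXp : X ^ m = u * L.x i ^ (e * (m : ℤ)) * u⁻¹ := by
        rw [hX, conj_pow, zpow_mul, zpow_natCast]
      rw [hXp]
      have k1 := len_conj_le E u (L.x i ^ (e * (m : ℤ)))
      have k2 := hE.le u
      have k3 := (hE.le_one (L.x i ^ (e * (m : ℤ)))).2 (Or.inr ⟨i, _, rfl⟩)
      omega
    have hla := hG.la
    have hlb := hG.lb
    unfold Wj
    have e0 := E.len_mul (a ^ w.δ j * X ^ w.e j 0 * b * X ^ w.e j 1 * a⁻¹ * X ^ w.e j 2 * b⁻¹)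
      (X ^ w.e j 3)
    have e1 := E.len_mul (a ^ w.δ j * X ^ w.e j 0 * b * X ^ w.e j 1 * a⁻¹ * X ^ w.e j 2) b⁻¹
    have e2 := E.len_mul (a ^ w.δ j * X ^ w.e j 0 * b * X ^ w.e j 1 * a⁻¹) (X ^ w.e j 2)
    have e3 := E.len_mul (a ^ w.δ j * X ^ w.e j 0 * b * X ^ w.e j 1) a⁻¹
    have e4 := E.len_mul (a ^ w.δ j * X ^ w.e j 0 * b) (X ^ w.e j 1)
    have e5 := E.len_mul (a ^ w.δ j * X ^ w.e j 0) b
    have e6 := E.len_mul (a ^ w.δ j) (X ^ w.e j 0)
    have f0 := hXe (w.e j 0)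
    have f1 := hXe (w.e j 1)
    have f2 := hXe (w.e j 2)
    have f3 := hXe (w.e j 3)
    have g1 : E.len (a ^ w.δ j) ≤ 2 := by
      have k1 := len_pow_le E a (w.δ j)
      have k2 := hE.le a
      have k3 : w.δ j * E.len a ≤ 2 * 1 := Nat.mul_le_mul (by
        rcases hδ j with h | h <;> omega) (k2.trans hla)
      omega
    have g2 : E.len b ≤ 1 := (hE.le b).trans hlb
    have g3 : E.len a⁻¹ ≤ 1 := by
      rw [E.len_inv]
      exact (hE.le a).trans hla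
    have g4 : E.len b⁻¹ ≤ 1 := by
      rw [E.len_inv]
      exact g2
    omega
  · intro hab hcomm
    obtain ⟨t, ht⟩ := c3 _ hcomm
    have hzlen : H.len (a * b * a⁻¹ * b⁻¹) ≤ 4 := by
      have k1 := H.len_mul (a * b * a⁻¹) b⁻¹
      have k2 := H.len_mul (a * b) a⁻¹
      have k3 := H.len_mul a b
      have k4 := hG.la
      have k5 := hG.lb
      rw [H.len_inv] at k1 k2
      omega
    by_cases ht0 : t = 0
    · rw [ht0, zpow_zero] at ht
      have hM : a * b * a⁻¹ * b⁻¹ ∈ M := (QuotientGroup.eq_one_iff _).1 ht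
      have h1' := hsmall _ hM (by omega)
      apply hab
      have : a * b = (a * b * a⁻¹ * b⁻¹) * (b * a) := by group
      rw [this, h1', one_mul]
    · have hz := r3 (u⁻¹ * (a * b * a⁻¹ * b⁻¹) * u) t (by
        have := len_conj_le' H u (a * b * a⁻¹ * b⁻¹)
        omega) ht0
      apply hz
      have e1 : ((u⁻¹ * (a * b * a⁻¹ * b⁻¹) * u : G) : G ⧸ M) =
          (u : G ⧸ M)⁻¹ * ((a * b * a⁻¹ * b⁻¹ : G) : G ⧸ M) * (u : G ⧸ M) := rfl
      rw [e1, ht, hWq, conj_zpow]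
      group
  · intro a' b' X' hG' j' q
    obtain ⟨i', u', e', hu', hX', hfr'⟩ := gd_frame h1 hshort w hδ hw hρ hG'
    obtain ⟨hfrj', hW'⟩ := hfr' j'
    obtain ⟨s1, s2⟩ := r4 j' i' e' _ _ hfrj' ((u' : G ⧸ M)⁻¹ * q * (u : G ⧸ M))
    set w0' := wd (w.δ j') (fun l => e' * (B0 * μ j' l)) (u'⁻¹ * a' * u') (u'⁻¹ * b' * u')
      (L.x i') with hw0'
    have hWq' : ((Wj w j' a' b' X' : G) : G ⧸ M) =
        (u' : G ⧸ M) * (w0' : G ⧸ M) * (u' : G ⧸ M)⁻¹ := by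
      rw [hW']
      rfl
    have hconj : ((u' : G ⧸ M)⁻¹ * q * (u : G ⧸ M)) * (w0 : G ⧸ M) *
        ((u' : G ⧸ M)⁻¹ * q * (u : G ⧸ M))⁻¹ =
        (u' : G ⧸ M)⁻¹ * (q * ((Wj w j a b X : G) : G ⧸ M) * q⁻¹) * (u' : G ⧸ M) := by
      rw [hWq]
      group
    constructor
    · intro hq
      obtain ⟨hj, g, hg1, hg2⟩ := s1 (by
        rw [hconj, hq, hWq']
        group)
      refine ⟨hj, u' * g * u⁻¹, ?_, ?_⟩
      · have : a' = u' * (u'⁻¹ * a' * u') * u'⁻¹ := by group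
        rw [this, hg1]
        group
      · have : b' = u' * (u'⁻¹ * b' * u') * u'⁻¹ := by group
        rw [this, hg2]
        group
    · intro hq
      apply s2
      rw [hconj, hq, hWq']
      group

end Pool.Agent.Y811.MON
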